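import Pool.Agent.X83.VP.L9

set_option autoImplicit false

/-! # Finiteness of the weighted mean squares under RH -/

open Filter Topology Set MeasureTheory

namespace Pool.Agent.X83.VQ

open Pool.Agent.X83.VP

noncomputable section

theorem sqI_of_RH (RH : RiemannHypothesis) {δ : ℝ} (hδ : 0 < δ) (hδ1 : δ ≤ 1) {a : ℝ} (ha : 0 < a) :
    SqI (fv δ) a := by
  obtain ⟨θ, hθ⟩ : ∃ θ : ℝ, θ = 1 / 2 + min (a / 2) (1 / 2) := ⟨_, rfl⟩
  have hm : 0 < min (a / 2) (1 / 2) := lt_min (by linarith) (by norm_num)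
  obtain ⟨C, hC, h⟩ := Pool.Agent.W190.psi_of_free (1 / 2) le_rfl
    (Pool.Agent.W190.rh_free.1 RH) θ (by rw [hθ]; linarith)
    (by rw [hθ]; have := min_le_right (a / 2) (1 / 2 : ℝ); linarith)
  have hθ2 : θ ≤ 1 / 2 + a / 2 := by rw [hθ]; have := min_le_left (a / 2) (1 / 2 : ℝ); linarith
  have hθ0 : 0 < θ := by rw [hθ]; linarith
  have hbd : ∀ v : ℝ, 0 ≤ v → |fv δ v| ≤ C * (Real.exp θ + 1) * Real.exp (a / 2 * v) := by
    intro v hv
    unfold fv
    have h1 := h (Real.exp (v + δ)) (Real.one_le_exp (by linarith))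
    have h2 := h (Real.exp v) (Real.one_le_exp hv)
    rw [← Real.exp_mul] at h1 h2
    rw [abs_mul, abs_of_pos (Real.exp_pos _)]
    have e1 : |Chebyshev.psi (Real.exp (v + δ)) - Chebyshev.psi (Real.exp v) -
        (Real.exp δ - 1) * Real.exp v| ≤ C * Real.exp ((v + δ) * θ) + C * Real.exp (v * θ) := by
      have e2 : Chebyshev.psi (Real.exp (v + δ)) - Chebyshev.psi (Real.exp v) -
          (Real.exp δ - 1) * Real.exp v = (Chebyshev.psi (Real.exp (v + δ)) - Real.exp (v + δ)) -
          (Chebyshev.psi (Real.exp v) - Real.exp v) := by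
        rw [Real.exp_add]; ring
      rw [e2]
      exact (abs_sub _ _).trans (add_le_add h1 h2)
    have e3 : Real.exp ((v + δ) * θ) ≤ Real.exp θ * Real.exp (v * θ) := by
      rw [← Real.exp_add]
      refine Real.exp_le_exp.2 ?_
      nlinarith
    have e4 : Real.exp (v * θ) * Real.exp (-v / 2) ≤ Real.exp (a / 2 * v) := by
      rw [← Real.exp_add]
      refine Real.exp_le_exp.2 ?_
      nlinarith
    calc _ ≤ (C * (Real.exp θ * Real.exp (v * θ)) + C * Real.exp (v * θ)) * Real.exp (-v / 2) := by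
          refine mul_le_mul_of_nonneg_right (e1.trans ?_) (Real.exp_pos _).le
          have := mul_le_mul_of_nonneg_left e3 hC.le
          linarith
      _ = C * (Real.exp θ + 1) * (Real.exp (v * θ) * Real.exp (-v / 2)) := by ring
      _ ≤ _ := mul_le_mul_of_nonneg_left e4 (by positivity)
  unfold SqI
  have h1 : IntegrableOn (fun v : ℝ => (C * (Real.exp θ + 1)) ^ 2 * Real.exp (-a * v)) (Ioi 0) :=
    (integrableOn_exp_mul_Ioi (by linarith) 0).const_mul _
  refine Integrable.mono' h1 ((((fv_meas δ).pow_const 2).mul (by fun_prop)).aestronglyMeasurable) ?_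
  rw [ae_restrict_iff' measurableSet_Ioi]
  refine Eventually.of_forall fun v hv => ?_
  have hv0 : 0 ≤ v := le_of_lt hv
  rw [norm_mul, Real.norm_of_nonneg (sq_nonneg _), Real.norm_of_nonneg (Real.exp_pos _).le,
    ← sq_abs]
  calc |fv δ v| ^ 2 * Real.exp (-(2 * a * v)) ≤
      (C * (Real.exp θ + 1) * Real.exp (a / 2 * v)) ^ 2 * Real.exp (-(2 * a * v)) :=
        mul_le_mul_of_nonneg_right (pow_le_pow_left₀ (abs_nonneg _) (hbd v hv0) 2)
          (Real.exp_pos _).le
    _ = (C * (Real.exp θ + 1)) ^ 2 * (Real.exp (a / 2 * v) ^ 2 * Real.exp (-(2 * a * v))) := by ring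
    _ = _ := by
        rw [← Real.exp_nat_mul, ← Real.exp_add]
        congr 2
        push_cast
        ring

end

end Pool.Agent.X83.VQ
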