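import Mathlib

set_option autoImplicit false

/-! # Windows from test functions, and from exponential integrals -/

open Filter Topology Set MeasureTheory

namespace Pool.Agent.X83.VQ

noncomputable section

/-- a trapezoid: `0` outside `(p, q)`, `1` on `[p + η, q - η]` -/
def trap (p q η α : ℝ) : ℝ := max 0 (min 1 (min ((α - p) / η) ((q - α) / η)))

lemma trap_cont (p q η : ℝ) : Continuous (trap p q η) := by
  unfold trap
  exact continuous_const.max (continuous_const.min ((by fun_prop : Continuous fun α : ℝ =>
    (α - p) / η).min (by fun_prop)))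

lemma trap_nonneg (p q η α : ℝ) : 0 ≤ trap p q η α := le_max_left _ _

lemma trap_le_one (p q η α : ℝ) : trap p q η α ≤ 1 := max_le zero_le_one (min_le_left _ _)

lemma trap_zero_left {p q η α : ℝ} (hη : 0 < η) (h : α ≤ p) : trap p q η α = 0 := by
  unfold trap
  refine max_eq_left ?_
  refine (min_le_right _ _).trans ((min_le_left _ _).trans ?_)
  exact div_nonpos_of_nonpos_of_nonneg (by linarith) hη.le

lemma trap_zero_right {p q η α : ℝ} (hη : 0 < η) (h : q ≤ α) : trap p q η α = 0 := by
  unfold trap
  refine max_eq_left ?_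
  refine (min_le_right _ _).trans ((min_le_right _ _).trans ?_)
  exact div_nonpos_of_nonpos_of_nonneg (by linarith) hη.le

lemma trap_one {p q η α : ℝ} (hη : 0 < η) (h1 : p + η ≤ α) (h2 : α ≤ q - η) :
    trap p q η α = 1 := by
  unfold trap
  have e1 : 1 ≤ (α - p) / η := by rw [le_div_iff₀ hη]; linarith
  have e2 : 1 ≤ (q - α) / η := by rw [le_div_iff₀ hη]; linarith
  rw [min_eq_left (le_min e1 e2), max_eq_right zero_le_one]

variable {ι : Type*} {l : Filter ι}

lemma win_mono {f : ℝ → ℝ} {p q p' q' : ℝ} (h1 : p' ≤ p) (h2 : p ≤ q) (h3 : q ≤ q')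
    (hf : ∀ α ∈ Icc p' q', 0 ≤ f α) (hi : IntervalIntegrable f volume p' q') :
    ∫ α in p..q, f α ≤ ∫ α in p'..q', f α := by
  refine intervalIntegral.integral_mono_interval h1 h2 h3 ?_ hi
  rw [EventuallyLE, ae_restrict_iff' measurableSet_Ioc]
  exact Eventually.of_forall fun α hα => hf α (Ioc_subset_Icc_self hα)

/-- windows from continuous test functions -/
theorem windows_of_tests {g : ι → ℝ → ℝ} {G : ℝ → ℝ} {P Q M : ℝ}
    (hg0 : ∀ᶠ T in l, ∀ α ∈ Icc P Q, 0 ≤ g T α)
    (hgi : ∀ᶠ T in l, IntervalIntegrable (g T) volume P Q) (hG : Continuous G)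
    (hG0 : ∀ α, 0 ≤ G α) (hGM : ∀ α, G α ≤ M)
    (H : ∀ φ : ℝ → ℝ, Continuous φ → (∀ α, 0 ≤ φ α) → (∀ α, α ≤ P → φ α = 0) →
      (∀ α, Q ≤ α → φ α = 0) →
      Tendsto (fun T => ∫ α in P..Q, φ α * g T α) l (𝓝 (∫ α in P..Q, φ α * G α)))
    {a b : ℝ} (hPa : P < a) (hab : a < b) (hbQ : b < Q) :
    Tendsto (fun T => ∫ α in a..b, g T α) l (𝓝 (∫ α in a..b, G α)) := by
  have hM : 0 ≤ M := (hG0 0).trans (hGM 0)
  have hPQ : P ≤ Q := by linarith
  rw [Metric.tendsto_nhds]
  intro ε hε
  obtain ⟨η, hη0, hη1, hη2, hη3, hη4⟩ : ∃ η : ℝ, 0 < η ∧ P ≤ a - η ∧ b + η ≤ Q ∧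
      2 * η ≤ b - a ∧ 2 * η * M ≤ ε / 4 := by
    refine ⟨min (min (a - P) (Q - b)) (min ((b - a) / 2) (ε / (8 * (M + 1)))), ?_, ?_, ?_, ?_, ?_⟩
    · exact lt_min (lt_min (by linarith) (by linarith)) (lt_min (by linarith) (by positivity))
    · have := (min_le_left (min (a - P) (Q - b)) (min ((b - a) / 2) (ε / (8 * (M + 1))))).trans
        (min_le_left _ _)
      linarith
    · have := (min_le_left (min (a - P) (Q - b)) (min ((b - a) / 2) (ε / (8 * (M + 1))))).trans
        (min_le_right _ _)
      linarith
    · have := (min_le_right (min (a - P) (Q - b)) (min ((b - a) / 2) (ε / (8 * (M + 1))))).trans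
        (min_le_left _ _)
      linarith
    · have := (min_le_right (min (a - P) (Q - b)) (min ((b - a) / 2) (ε / (8 * (M + 1))))).trans
        (min_le_right _ _)
      calc 2 * _ * M ≤ 2 * (ε / (8 * (M + 1))) * M := by gcongr
        _ = ε / 4 * (M / (M + 1)) := by field_simp; ring
        _ ≤ ε / 4 * 1 := by
            refine mul_le_mul_of_nonneg_left ?_ (by positivity)
            rw [div_le_one (by positivity)]; linarith
        _ = ε / 4 := mul_one _
  have hGi : ∀ p q : ℝ, IntervalIntegrable G volume p q := fun p q => hG.intervalIntegrable p q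
  -- the two trapezoids
  have u1 := H (trap (a - η) (b + η) η) (trap_cont _ _ _) (trap_nonneg _ _ _)
    (fun α hα => trap_zero_left hη0 (by linarith)) (fun α hα => trap_zero_right hη0 (by linarith))
  have l1 := H (trap a b η) (trap_cont _ _ _) (trap_nonneg _ _ _)
    (fun α hα => trap_zero_left hη0 (by linarith)) (fun α hα => trap_zero_right hη0 (by linarith))
  have iT : ∀ p q η x y : ℝ, IntervalIntegrable (fun α => trap p q η α * G α) volume x y :=
    fun p q η x y => ((trap_cont p q η).mul hG).intervalIntegrable _ _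
  have iG : ∀ p q η : ℝ, IntervalIntegrable (fun α => trap p q η α * G α) volume P Q := fun p q η =>
    iT p q η P Q
  -- integrals of `G` against the trapezoids
  have hlen : ∀ p q : ℝ, p ≤ q → ∫ α in p..q, G α ≤ M * (q - p) := by
    intro p q hpq
    calc ∫ α in p..q, G α ≤ ∫ _ in p..q, M :=
          intervalIntegral.integral_mono_on hpq (hGi p q) intervalIntegrable_const fun α _ => hGM α
      _ = M * (q - p) := by rw [intervalIntegral.integral_const, smul_eq_mul]; ring
  have u2 : ∫ α in P..Q, trap (a - η) (b + η) η α * G α ≤ (∫ α in a..b, G α) + ε / 4 := by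
    have e1 : ∫ α in P..Q, trap (a - η) (b + η) η α * G α =
        ∫ α in (a - η)..(b + η), trap (a - η) (b + η) η α * G α := by
      rw [← intervalIntegral.integral_add_adjacent_intervals
          (iT (a - η) (b + η) η P (a - η)) (iT (a - η) (b + η) η (a - η) Q),
        ← intervalIntegral.integral_add_adjacent_intervals
          (iT (a - η) (b + η) η (a - η) (b + η)) (iT (a - η) (b + η) η (b + η) Q)]
      have z1 : ∫ α in P..(a - η), trap (a - η) (b + η) η α * G α = 0 := by
        refine (intervalIntegral.integral_congr (g := fun _ => (0 : ℝ)) fun α hα => ?_).trans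
          (by simp)
        rw [uIcc_of_le hη1] at hα
        simp only
        rw [trap_zero_left hη0 hα.2, zero_mul]
      have z2 : ∫ α in (b + η)..Q, trap (a - η) (b + η) η α * G α = 0 := by
        refine (intervalIntegral.integral_congr (g := fun _ => (0 : ℝ)) fun α hα => ?_).trans
          (by simp)
        rw [uIcc_of_le hη2] at hα
        simp only
        rw [trap_zero_right hη0 hα.1, zero_mul]
      rw [z1, z2]; ring
    rw [e1]
    calc ∫ α in (a - η)..(b + η), trap (a - η) (b + η) η α * G α ≤
        ∫ α in (a - η)..(b + η), G α := by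
          refine intervalIntegral.integral_mono_on (by linarith)
            (((trap_cont (a - η) (b + η) η).mul hG).intervalIntegrable _ _) (hGi _ _)
            fun α _ => mul_le_of_le_one_left (hG0 α) (trap_le_one _ _ _ _)
      _ = (∫ α in (a - η)..a, G α) + (∫ α in a..b, G α) + ∫ α in b..(b + η), G α := by
          rw [intervalIntegral.integral_add_adjacent_intervals (hGi _ _) (hGi _ _),
            intervalIntegral.integral_add_adjacent_intervals (hGi _ _) (hGi _ _)]
      _ ≤ (∫ α in a..b, G α) + ε / 4 := by
          have a1 := hlen (a - η) a (by linarith)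
          have a2 := hlen b (b + η) (by linarith)
          nlinarith
  have l2 : (∫ α in a..b, G α) - ε / 4 ≤ ∫ α in P..Q, trap a b η α * G α := by
    calc (∫ α in a..b, G α) - ε / 4 ≤ ∫ α in (a + η)..(b - η), G α := by
          have e : ∫ α in a..b, G α = (∫ α in a..(a + η), G α) + (∫ α in (a + η)..(b - η), G α) +
              ∫ α in (b - η)..b, G α := by
            rw [intervalIntegral.integral_add_adjacent_intervals (hGi _ _) (hGi _ _),
              intervalIntegral.integral_add_adjacent_intervals (hGi _ _) (hGi _ _)]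
          have a1 := hlen a (a + η) (by linarith)
          have a2 := hlen (b - η) b (by linarith)
          nlinarith
      _ = ∫ α in (a + η)..(b - η), trap a b η α * G α := by
          refine intervalIntegral.integral_congr fun α hα => ?_
          rw [uIcc_of_le (by linarith)] at hα
          rw [trap_one hη0 hα.1 hα.2, one_mul]
      _ ≤ ∫ α in P..Q, trap a b η α * G α :=
          win_mono (by linarith) (by linarith) (by linarith)
            (fun α _ => mul_nonneg (trap_nonneg _ _ _ _) (hG0 α)) (iG a b η)
  have u3 := u1.eventually (gt_mem_nhds (show ∫ α in P..Q, trap (a - η) (b + η) η α * G α <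
    (∫ α in P..Q, trap (a - η) (b + η) η α * G α) + ε / 4 by linarith))
  have l3 := l1.eventually (lt_mem_nhds (show (∫ α in P..Q, trap a b η α * G α) - ε / 4 <
    ∫ α in P..Q, trap a b η α * G α by linarith))
  filter_upwards [u3, l3, hg0, hgi] with T h1 h2 h3 h4
  have hti : ∀ p q η : ℝ, IntervalIntegrable (fun α => trap p q η α * g T α) volume P Q :=
    fun p q η => h4.continuousOn_mul (trap_cont p q η).continuousOn
  have hsub : IntervalIntegrable (g T) volume a b := h4.mono_set (by
    rw [uIcc_of_le hab.le, uIcc_of_le hPQ]; exact Icc_subset_Icc hPa.le hbQ.le)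
  have up : ∫ α in a..b, g T α ≤ ∫ α in P..Q, trap (a - η) (b + η) η α * g T α := by
    calc ∫ α in a..b, g T α = ∫ α in a..b, trap (a - η) (b + η) η α * g T α := by
          refine intervalIntegral.integral_congr fun α hα => ?_
          rw [uIcc_of_le hab.le] at hα
          rw [trap_one hη0 (by linarith [hα.1]) (by linarith [hα.2]), one_mul]
      _ ≤ _ := win_mono hPa.le hab.le hbQ.le
          (fun α hα => mul_nonneg (trap_nonneg _ _ _ _) (h3 α hα)) (hti _ _ _)
  have lo : ∫ α in P..Q, trap a b η α * g T α ≤ ∫ α in a..b, g T α := by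
    have e1 : ∫ α in P..Q, trap a b η α * g T α = ∫ α in a..b, trap a b η α * g T α := by
      have s1 : IntervalIntegrable (fun α => trap a b η α * g T α) volume P a :=
        (hti a b η).mono_set (by
          rw [uIcc_of_le hPa.le, uIcc_of_le hPQ]; exact Icc_subset_Icc le_rfl (by linarith))
      have s2 : IntervalIntegrable (fun α => trap a b η α * g T α) volume a b :=
        (hti a b η).mono_set (by
          rw [uIcc_of_le hab.le, uIcc_of_le hPQ]; exact Icc_subset_Icc hPa.le hbQ.le)
      have s3 : IntervalIntegrable (fun α => trap a b η α * g T α) volume b Q :=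
        (hti a b η).mono_set (by
          rw [uIcc_of_le hbQ.le, uIcc_of_le hPQ]; exact Icc_subset_Icc (by linarith) le_rfl)
      rw [← intervalIntegral.integral_add_adjacent_intervals (s1.trans s2) s3,
        ← intervalIntegral.integral_add_adjacent_intervals s1 s2]
      have z1 : ∫ α in P..a, trap a b η α * g T α = 0 := by
        refine (intervalIntegral.integral_congr (g := fun _ => (0 : ℝ)) fun α hα => ?_).trans
          (by simp)
        rw [uIcc_of_le hPa.le] at hα
        simp only
        rw [trap_zero_left hη0 hα.2, zero_mul]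
      have z2 : ∫ α in b..Q, trap a b η α * g T α = 0 := by
        refine (intervalIntegral.integral_congr (g := fun _ => (0 : ℝ)) fun α hα => ?_).trans
          (by simp)
        rw [uIcc_of_le hbQ.le] at hα
        simp only
        rw [trap_zero_right hη0 hα.1, zero_mul]
      rw [z1, z2]; ring
    rw [e1]
    refine intervalIntegral.integral_mono_on hab.le
      (hsub.continuousOn_mul (trap_cont a b η).continuousOn) hsub fun α hα => ?_
    exact mul_le_of_le_one_left (h3 α ⟨by linarith [hα.1], by linarith [hα.2]⟩) (trap_le_one _ _ _ _)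
  rw [Real.dist_eq, abs_lt]
  constructor <;> linarith

end

end Pool.Agent.X83.VQ
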